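import Mathlib
import Pool.Agent.U337.EM.Asm
import Pool.Agent.U337.EM.Q2
import Pool.Agent.U337.EM.G
import Pool.Agent.U739.EM.FQ
import Pool.Agent.U375.EM.Z
import Pool.Agent.U574.EM.GR
import Pool.Agent.U928.EM.O
import Pool.Agent.U451.EM.DT
import Pool.Agent.U796.EM.PM
import Pool.Agent.U603.EM.I
import Pool.Agent.U608.EM.A
import Pool.Agent.U454.EM.FX
import Pool.Agent.U324.EM.B
import Pool.Agent.U7.EM.X
import Pool.Agent.U337.EM.TC

set_option autoImplicit false

namespace Pool.Agent.Results.MP_37e2d5_al.MetabelianCentre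

/-- the dimension of the centre of a Lie algebra -/
noncomputable def dimCentre (F L : Type) [Field F] [LieRing L] [LieAlgebra F L] : ℕ :=
  Module.finrank F (LieAlgebra.center F L)

theorem iso2 (F : Type) [Field F] [CharZero F] (L : Type) [LieRing L] [LieAlgebra F L]
    [Module.Finite F L] (H : Type) [LieRing H] [LieAlgebra F H]
    (hU : Nonempty (UniversalEnvelopingAlgebra F L ≃ₐ[F] UniversalEnvelopingAlgebra F H))
    (h2 : LieAlgebra.derivedSeries F L 2 = ⊥) : Nonempty (L ≃ₗ⁅F⁆ H) := by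
  refine Pool.Agent.U337.EM.assembly
    (Pool.Agent.U739.EM.FQ.t_FQ (Pool.Agent.U454.EM.FX.t_FX Pool.Agent.U7.EM.X.t_X))
    (Pool.Agent.U375.EM.t_Z Pool.Agent.U608.EM.A.t_A) Pool.Agent.U574.EM.t_GR Pool.Agent.U324.EM.t_B
    (Pool.Agent.U337.EM.T669.t_C Pool.Agent.U608.EM.A.t_A)
    (Pool.Agent.U337.EM.GG.t_G Pool.Agent.U796.EM.t_PM Pool.Agent.U928.EM.t_O Pool.Agent.U451.EM.t_DT)
    Pool.Agent.U603.EM.t_I F L ?_ H hU
  have h : ∀ a b : L, ⁅a, b⁆ ∈ LieAlgebra.derivedSeries F L 1 := by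
    intro a b
    rw [LieAlgebra.derivedSeries_def, LieAlgebra.derivedSeriesOfIdeal_succ,
      LieAlgebra.derivedSeriesOfIdeal_zero]
    exact LieSubmodule.lie_mem_lie (LieSubmodule.mem_top _) (LieSubmodule.mem_top _)
  intro a b c e
  have h3 : ⁅⁅a, b⁆, ⁅c, e⁆⁆ ∈ LieAlgebra.derivedSeriesOfIdeal F L (1 + 1) ⊤ := by
    rw [LieAlgebra.derivedSeriesOfIdeal_succ]
    exact LieSubmodule.lie_mem_lie (h a b) (h c e)
  have h4 : ⁅⁅a, b⁆, ⁅c, e⁆⁆ ∈ LieAlgebra.derivedSeries F L 2 := h3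
  rw [h2] at h4
  exact (LieSubmodule.mem_bot _).1 h4

theorem centre_eq {F L H : Type} [Field F] [LieRing L] [LieAlgebra F L] [LieRing H] [LieAlgebra F H]
    (e : L ≃ₗ⁅F⁆ H) : dimCentre F L = dimCentre F H := by
  unfold dimCentre
  have h0 : e 0 = 0 := map_zero e.toLinearEquiv
  have h : ∀ x : L, x ∈ LieAlgebra.center F L ↔ e x ∈ LieAlgebra.center F H := by
    intro x
    rw [LieModule.mem_maxTrivSubmodule, LieModule.mem_maxTrivSubmodule]
    constructor
    · intro hx y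
      obtain ⟨z, hz⟩ := e.surjective y
      have hz' : e z = y := hz
      rw [← hz', ← LieEquiv.map_lie, hx z]
      exact h0
    · intro hx y
      have h1 := hx (e y)
      rw [← LieEquiv.map_lie] at h1
      have h2 : e ⁅y, x⁆ = e 0 := by rw [h1]; exact h0.symm
      exact e.injective h2
  exact LinearEquiv.finrank_eq
    { toFun := fun x => ⟨e x, (h x).1 x.2⟩
      invFun := fun y => ⟨e.symm y, (h _).2 (by rw [LieEquiv.apply_symm_apply]; exact y.2)⟩
      left_inv := fun x => Subtype.ext (by simp)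
      right_inv := fun y => Subtype.ext (by simp)
      map_add' := fun x y => Subtype.ext (by simp)
      map_smul' := fun t x => Subtype.ext (by simp) }

theorem result (F : Type) [Field F] [CharZero F] (L : Type) [LieRing L] [LieAlgebra F L]
    [Module.Finite F L] (H : Type) [LieRing H] [LieAlgebra F H]
    (hU : Nonempty (UniversalEnvelopingAlgebra F L ≃ₐ[F] UniversalEnvelopingAlgebra F H)) :
    dimCentre F (L ⧸ LieAlgebra.derivedSeries F L 2) =
        dimCentre F (H ⧸ LieAlgebra.derivedSeries F H 2) ∧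
      (LieAlgebra.derivedSeries F L 2 = ⊥ → dimCentre F L = dimCentre F H) := by
  constructor
  · obtain ⟨e⟩ := Pool.Agent.U337.EM.Q.assembly2
      (Pool.Agent.U739.EM.FQ.t_FQ (Pool.Agent.U454.EM.FX.t_FX Pool.Agent.U7.EM.X.t_X))
      (Pool.Agent.U375.EM.t_Z Pool.Agent.U608.EM.A.t_A) Pool.Agent.U324.EM.t_B
      (Pool.Agent.U337.EM.T669.t_C Pool.Agent.U608.EM.A.t_A)
      (Pool.Agent.U337.EM.GG.t_G Pool.Agent.U796.EM.t_PM Pool.Agent.U928.EM.t_O
        Pool.Agent.U451.EM.t_DT) F L H hU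
    exact centre_eq e
  · intro h2
    obtain ⟨e⟩ := iso2 F L H hU h2
    exact centre_eq e

end Pool.Agent.Results.MP_37e2d5_al.MetabelianCentre
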